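import Mathlib
import Pool.Agent.TriMin.Family
import Pool.Agent.TriMin.Arith

set_option autoImplicit false

namespace Pool.Agent.Results.MP_e2add3_co.AllLargeFail

/-- For every `t ≥ 2` and every `n ≥ 5t` there is a balanced tripartite graph with classes of size
`n` and minimum degree at least `n + t` that has fewer than `4t³` triangles. -/
theorem result : ∀ t n : ℕ, 2 ≤ t → 5 * t ≤ n →
    ∃ G : SimpleGraph (Fin 3 × Fin n),
      (∀ (i : Fin 3) (a b : Fin n), ¬ G.Adj (i, a) (i, b)) ∧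
      (∀ v : Fin 3 × Fin n, n + t ≤ (G.neighborSet v).ncard) ∧
      (G.cliqueSet 3).ncard < 4 * t ^ 3 := by
  intro t n ht hn
  rcases Nat.lt_or_ge n (6 * t - 1) with h | h
  · obtain ⟨x, y, hxy, hle, hle', hx⟩ : ∃ x y, x + y = n ∧ x ≤ y ∧ y ≤ x + 1 ∧ 2 * t ≤ x :=
      ⟨n / 2, n - n / 2, by omega, by omega, by omega, by omega⟩
    obtain ⟨G, h1, h2, h3⟩ := Pool.Agent.TriMin.family t n x y (x - t) (y - t) (3 * t - x)
      (3 * t - y) (by omega) hxy (by omega) (by omega) (by omega) (by omega) (by omega) (by omega)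
    exact ⟨G, h1, h2, lt_of_le_of_lt h3
      (Pool.Agent.TriMin.arith2 t x y ht (by omega) (by omega) hle hle')⟩
  · obtain ⟨G, h1, h2, h3⟩ := Pool.Agent.TriMin.family t n (3 * t - 1) (n - (3 * t - 1))
      (2 * t - 1) (2 * t) 1 0 (by omega) (by omega) (by omega) (by omega) (by omega) (by omega)
      (by omega) (by omega)
    exact ⟨G, h1, h2, lt_of_le_of_lt h3 (Pool.Agent.TriMin.arith1 t ht _)⟩

end Pool.Agent.Results.MP_e2add3_co.AllLargeFail
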